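import Pool.Agent.Helper63.Sey3.Goals

/-! Project SEY3, packet COREB. -/

namespace Pool.Agent.Helper20.Sey3

open Pool.Agent.Helper63.Sey3
open Pool.Agent.Helper8.Sey (near NearBd near_symm near_three)
open Pool.Agent.Helper41.Girth4 (Pr Pr_mono Pr_exists_le Pr_nonneg Pr_congr)

/-! ### Numbers -/

theorem poly_exp (c : ℝ) (hc : 0 < c) (n : ℕ) (B : ℝ) :
    ∃ M : ℕ, ∀ D : ℕ, M ≤ D → B * (D : ℝ) ^ n * Real.exp (-(c * D)) ≤ 1 := by
  have h1 := Real.tendsto_pow_mul_exp_neg_atTop_nhds_zero n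
  have h2 : Filter.Tendsto (fun D : ℕ => c * (D : ℝ)) Filter.atTop Filter.atTop :=
    Filter.Tendsto.const_mul_atTop hc tendsto_natCast_atTop_atTop
  have h3 := (h1.comp h2).const_mul (B / c ^ n)
  rw [mul_zero] at h3
  have h4 := h3.eventually (Iic_mem_nhds (zero_lt_one : (0 : ℝ) < 1))
  obtain ⟨M, hM⟩ := Filter.eventually_atTop.1 h4
  refine ⟨M, fun D hD => ?_⟩
  have h5 : B / c ^ n * ((c * (D : ℝ)) ^ n * Real.exp (-(c * D))) ≤ 1 := hM D hD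
  have h6 : B / c ^ n * ((c * (D : ℝ)) ^ n * Real.exp (-(c * D)))
      = B * (D : ℝ) ^ n * Real.exp (-(c * D)) := by
    rw [mul_pow]
    field_simp
  rwa [h6] at h5

theorem near_five (K l : ℕ) (hl : l < K) : ∃ S : Finset ℕ, S.card ≤ 5 ∧
    ∀ l' < K, (∃ m < K, near K l m ∧ near K l' m) → l' ∈ S := by
  let c : ℕ → ℕ := fun x => if x + 1 = K then 0 else x + 1
  let d : ℕ → ℕ := fun x => if x = 0 then K - 1 else x - 1
  refine ⟨{l, c l, d l, c (c l), d (d l)}, Finset.card_le_five, ?_⟩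
  rintro l' hl' ⟨m, hm, h1, h2⟩
  simp only [Finset.mem_insert, Finset.mem_singleton, c, d]
  unfold near at h1 h2
  split_ifs <;> omega

section

variable {V : Type} (P : Sy V)

instance labNonempty : Nonempty P.Lab :=
  ⟨((true, ⟨0, P.q_pos⟩), (⟨0, P.hZ⟩, 1), (fun _ => ⟨0, P.hL⟩), (⟨0, P.qm_pos⟩, ⟨0, by
    have := P.hJ; omega⟩))⟩

/-- The event counted in the block of class `cl l a` at time `j`. -/
def Bv (R : ℕ → V → ZMod P.N → ℕ) (a j : ℕ) (v : V) (ω : P.Om) : Prop :=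
  (P.T R ω j v ∧ P.isC ω v (P.cl (P.part v) a)) ∨ P.Ins ω v a j

/-- The members of the part `l`. -/
noncomputable def Sl [Fintype V] (l : ℕ) : Finset V := Finset.univ.filter fun v => P.part v = l

theorem mem_Sl [Fintype V] (l : ℕ) (v : V) : v ∈ Sl P l ↔ P.part v = l := by
  simp [Sl]

open Classical in
/-- The bad event of the part `l`. -/
def Bad [Fintype V] (R : ℕ → V → ZMod P.N → ℕ) (wt : V → ℕ) (p δ1 : ℝ) (l : ℕ) (ω : P.Om) : Prop :=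
  ∃ x ∈ (Finset.range P.qm ×ˢ Finset.range P.J),
    (∑ v ∈ (Sl P l).filter (fun v => Bv P R x.1 x.2 v ω), (wt v : ℝ)) ≤
      (1 - δ1) * p * ∑ v ∈ Sl P l, (wt v : ℝ)

/-- The region of the part `l`. -/
def Wl (l : ℕ) : Set V := {w | near P.K l (P.part w)}

theorem Bad_loc [Fintype V] (hP : GoalLOCP) (R : ℕ → V → ZMod P.N → ℕ) (wt : V → ℕ) (p δ1 : ℝ)
    (l : ℕ) (hl : l < P.K) (ω ω' : P.Om) (h : ∀ i ∈ Wl P l, ω i = ω' i)
    (hb : Bad P R wt p δ1 l ω) : Bad P R wt p δ1 l ω' := by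
  classical
  obtain ⟨x, hx, hc⟩ := hb
  refine ⟨x, hx, ?_⟩
  have hj : x.2 < P.J := Finset.mem_range.1 (Finset.mem_product.1 hx).2
  have h1 := hP V P R l ω ω' hl (fun w hw => h w hw)
  have h2 := hP V P R l ω' ω hl (fun w hw => (h w hw).symm)
  have e : ∀ v ∈ Sl P l, (Bv P R x.1 x.2 v ω' ↔ Bv P R x.1 x.2 v ω) := by
    intro v hv
    have hv' := (mem_Sl P l v).1 hv
    obtain ⟨a1, a2, a3⟩ := h1 v hv'
    obtain ⟨b1, b2, b3⟩ := h2 v hv'
    constructor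
    · rintro (⟨hT, hC⟩ | hI)
      · exact Or.inl ⟨b2 _ hj hT, b1 _ hC⟩
      · exact Or.inr (b3 _ _ hI)
    · rintro (⟨hT, hC⟩ | hI)
      · exact Or.inl ⟨a2 _ hj hT, a1 _ hC⟩
      · exact Or.inr (a3 _ _ hI)
  rw [Finset.filter_congr e]
  exact hc

/-- The bound for the probability of the bad event. -/
theorem Bad_prob [Fintype V] (hH : GoalHOE) (R : ℕ → V → ZMod P.N → ℕ) (wt : V → ℕ)
    (hwt : ∀ v, 1 ≤ wt v ∧ wt v ≤ 2) (Reg : V → Set V)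
    (hReg1 : ∀ v (ω ω' : P.Om), (∀ w ∈ Reg v, ω w = ω' w) →
      (∀ g, P.isC ω v g → P.isC ω' v g) ∧ (∀ j < P.J, P.T R ω j v → P.T R ω' j v) ∧
      ∀ a j, P.Ins ω v a j → P.Ins ω' v a j)
    (Rr : ℕ) (hRr : 1 ≤ Rr) (hReg2 : ∀ v, Nat.card {t // ¬ Disjoint (Reg v) (Reg t)} ≤ Rr)
    (p δ1 : ℝ) (hp : 0 ≤ p) (hδ : 0 ≤ δ1)
    (hpr : ∀ v : V, ∀ a < P.qm, ∀ j < P.J, p ≤ Pr (Bv P R a j v))
    (l s : ℕ) (hs : 1 ≤ s) (hsl : s ≤ 2 * (Sl P l).card) :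
    Pr (Bad P R wt p δ1 l) ≤
      (P.qm * P.J : ℝ) * (Rr * Real.exp (-(δ1 ^ 2 * p ^ 2 * s / (4 * (Rr : ℝ) ^ 2)))) := by
  classical
  refine (Pr_exists_le (Finset.range P.qm ×ˢ Finset.range P.J)
    (fun x (ω : P.Om) => (∑ v ∈ (Sl P l).filter (fun v => Bv P R x.1 x.2 v ω), (wt v : ℝ)) ≤
      (1 - δ1) * p * ∑ v ∈ Sl P l, (wt v : ℝ))).trans ?_
  have hne : (Sl P l).Nonempty := Finset.card_pos.1 (by omega)
  have hR0 : (0 : ℝ) < Rr := by exact_mod_cast hRr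
  have hcl : (s : ℝ) ≤ 2 * (Sl P l).card := by exact_mod_cast hsl
  have key : ∀ x ∈ (Finset.range P.qm ×ˢ Finset.range P.J),
      Pr (fun ω : P.Om => (∑ v ∈ (Sl P l).filter (fun v => Bv P R x.1 x.2 v ω), (wt v : ℝ)) ≤
      (1 - δ1) * p * ∑ v ∈ Sl P l, (wt v : ℝ)) ≤
        Rr * Real.exp (-(δ1 ^ 2 * p ^ 2 * s / (4 * (Rr : ℝ) ^ 2))) := by
    intro x hx
    have ha : x.1 < P.qm := Finset.mem_range.1 (Finset.mem_product.1 hx).1
    have hj : x.2 < P.J := Finset.mem_range.1 (Finset.mem_product.1 hx).2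
    refine (hH V P.Lab (Sl P l) (Bv P R x.1 x.2) Reg Rr wt p δ1 hne hRr hp hδ hwt ?_
      (fun v _ => hReg2 v) (fun v _ => hpr v x.1 ha x.2 hj)).trans ?_
    · intro v ω ω' h hE
      obtain ⟨h1, h2, h3⟩ := hReg1 v ω ω' h
      rcases hE with ⟨hT, hC⟩ | hI
      · exact Or.inl ⟨h2 _ hj hT, h1 _ hC⟩
      · exact Or.inr (h3 _ _ hI)
    · apply mul_le_mul_of_nonneg_left _ hR0.le
      apply Real.exp_le_exp.2
      apply neg_le_neg
      rw [div_le_div_iff₀ (by positivity) (by positivity)]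
      have h5 : 0 ≤ δ1 ^ 2 * p ^ 2 * (Rr : ℝ) ^ 2 := by positivity
      nlinarith
  refine (Finset.sum_le_sum key).trans ?_
  rw [Finset.sum_const, Finset.card_product, Finset.card_range, Finset.card_range,
    nsmul_eq_mul, Nat.cast_mul]

/-- The bad event of a vertex. -/
def Bad1 (w : V) (ω : P.Om) : Prop :=
  ¬ (3 * Nat.card {u // P.Own w u ∧ P.Ms ω u} + 1 ≤ Nat.card {a : ℕ // P.Fa ω w a})

theorem Bad1_loc (w : V) (ω ω' : P.Om) (h : ∀ u, P.Own w u → P.col ω u = P.col ω' u)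
    (hb : Bad1 P w ω) : Bad1 P w ω' := by
  unfold Bad1 at *
  have e1 : ∀ u, (P.Own w u ∧ P.Ms ω' u) ↔ (P.Own w u ∧ P.Ms ω u) := by
    intro u
    refine and_congr_right fun hu => ?_
    unfold Sy.Ms
    rw [h u hu]
  have e2 : ∀ a, P.Fa ω' w a ↔ P.Fa ω w a := by
    intro a
    unfold Sy.Fa
    refine and_congr_right fun _ => and_congr_right fun _ => ?_
    refine forall_congr' fun u => ?_
    constructor
    · intro h1 hu x hx
      exact h1 hu x (by rw [← h u hu]; exact hx)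
    · intro h1 hu x hx
      exact h1 hu x (by rw [h u hu]; exact hx)
  rw [Nat.card_congr (Equiv.subtypeEquivRight e1), Nat.card_congr (Equiv.subtypeEquivRight e2)]
  exact hb

theorem deg12 (Reg : V → Set V) (hReg : ∀ v, ∀ x ∈ Reg v, P.part x = P.part v) (v : V) :
    Nat.card {l : Fin P.K // ¬ Disjoint (Reg v) (Wl P (l : ℕ))} ≤ 3 := by
  obtain ⟨S, hS, hn⟩ := near_three P.K (P.part v)
  refine le_trans ?_ hS
  rw [← Fintype.card_coe S, ← Nat.card_eq_fintype_card]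
  refine Nat.card_le_card_of_injective
    (fun x : {l : Fin P.K // ¬ Disjoint (Reg v) (Wl P (l : ℕ))} =>
      (⟨(x.1 : ℕ), hn _ x.1.2 ?_⟩ : {b // b ∈ S})) ?_
  · obtain ⟨w, hw1, hw2⟩ := Set.not_disjoint_iff.1 x.2
    have a2 : near P.K (x.1 : ℕ) (P.part w) := hw2
    rw [hReg v w hw1] at a2
    exact near_symm a2
  · intro x y hxy
    exact Subtype.ext (Fin.ext (congrArg Subtype.val hxy))

theorem deg22 (l : Fin P.K) :
    Nat.card {l' : Fin P.K // ¬ Disjoint (Wl P (l : ℕ)) (Wl P (l' : ℕ))} ≤ 5 := by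
  obtain ⟨S, hS, hn⟩ := near_five P.K l l.2
  refine le_trans ?_ hS
  rw [← Fintype.card_coe S, ← Nat.card_eq_fintype_card]
  refine Nat.card_le_card_of_injective
    (fun x : {l' : Fin P.K // ¬ Disjoint (Wl P (l : ℕ)) (Wl P (l' : ℕ))} =>
      (⟨(x.1 : ℕ), hn _ x.1.2 ?_⟩ : {b // b ∈ S})) ?_
  · obtain ⟨w, hw1, hw2⟩ := Set.not_disjoint_iff.1 x.2
    exact ⟨P.part w, P.part_lt w, hw1, hw2⟩
  · intro x y hxy
    exact Subtype.ext (Fin.ext (congrArg Subtype.val hxy))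

theorem deg21 [Fintype V] (Reg : V → Set V) (hReg : ∀ v, ∀ x ∈ Reg v, P.part x = P.part v)
    (s : ℕ) (hs : ∀ m < P.K, (Sl P m).card ≤ 2 * s) (l : Fin P.K) :
    Nat.card {v // ¬ Disjoint (Wl P (l : ℕ)) (Reg v)} ≤ 6 * s := by
  classical
  obtain ⟨S, hS, hn⟩ := near_three P.K (l : ℕ)
  have hs' : ∀ m, (Sl P m).card ≤ 2 * s := by
    intro m
    by_cases hm : m < P.K
    · exact hs m hm
    · have : Sl P m = ∅ := by
        rw [Finset.eq_empty_iff_forall_notMem]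
        intro v hv
        have h1 := (mem_Sl P m v).1 hv
        have h2 := P.part_lt v
        omega
      rw [this, Finset.card_empty]
      exact Nat.zero_le _
  have h1 : (S.biUnion (Sl P)).card ≤ 6 * s := by
    calc (S.biUnion (Sl P)).card ≤ ∑ m ∈ S, (Sl P m).card := Finset.card_biUnion_le
      _ ≤ ∑ _m ∈ S, 2 * s := Finset.sum_le_sum fun m _ => hs' m
      _ = S.card * (2 * s) := by rw [Finset.sum_const, smul_eq_mul]
      _ ≤ 3 * (2 * s) := Nat.mul_le_mul_right _ hS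
      _ = 6 * s := by ring
  refine le_trans ?_ h1
  rw [← Fintype.card_coe (S.biUnion (Sl P)), ← Nat.card_eq_fintype_card]
  refine Nat.card_le_card_of_injective
    (fun x : {v // ¬ Disjoint (Wl P (l : ℕ)) (Reg v)} =>
      (⟨x.1, ?_⟩ : {b // b ∈ S.biUnion (Sl P)})) ?_
  · obtain ⟨w, hw1, hw2⟩ := Set.not_disjoint_iff.1 x.2
    have a1 : near P.K (l : ℕ) (P.part w) := hw1
    rw [hReg _ w hw2] at a1
    exact Finset.mem_biUnion.2 ⟨P.part x.1, hn _ (P.part_lt _) a1, (mem_Sl P _ _).2 rfl⟩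
  · intro x y hxy
    have hxy' := congrArg Subtype.val hxy
    exact Subtype.ext hxy'

/-- The local lemma for a system. -/
theorem exists_good [Fintype V] (hLOC : GoalLOC) (hLOC2 : GoalLOC2) (hLP : GoalLOCP)
    (hH : GoalHOE) (hLL : GoalLL2) (R : ℕ → V → ZMod P.N → ℕ) (wt : V → ℕ)
    (hwt : ∀ v, 1 ≤ wt v ∧ wt v ≤ 2) (pv p δ1 : ℝ) (hpv : 0 ≤ pv) (hp : 0 ≤ p) (hδ : 0 ≤ δ1)
    (Rr : ℕ) (hRr : Rr = (3 * P.D + 1) ^ (2 * (2 * P.Z + P.J + 4))) (h8 : 8 * pv * Rr ≤ 1)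
    (h384 : 384 * pv * (Rr : ℝ) ^ 2 ≤ δ1 ^ 2 * p ^ 2)
    (hA1 : ∀ w, Pr (Bad1 P w) ≤ pv)
    (hpr : ∀ v : V, ∀ a < P.qm, ∀ j < P.J, p ≤ Pr (Bv P R a j v))
    (s : ℕ) (hs : 1 ≤ s) (hsl : ∀ m < P.K, s ≤ 2 * (Sl P m).card ∧ (Sl P m).card ≤ 2 * s)
    (hlarge : 30 * (P.qm * P.J : ℝ) * Rr ≤
      Real.exp (δ1 ^ 2 * p ^ 2 / (8 * (Rr : ℝ) ^ 2) * s)) :
    ∃ ω : P.Om, (∀ w, ¬ Bad1 P w ω) ∧ ∀ l : Fin P.K, ¬ Bad P R wt p δ1 (l : ℕ) ω := by
  obtain ⟨Reg, hReg1, hReg2⟩ := hLOC V P R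
  obtain ⟨Reg', hReg'0, hReg'1, hReg'2⟩ := hLOC2 V P
  have hR1 : 1 ≤ Rr := by
    rw [hRr]
    exact Nat.one_le_pow _ _ (by omega)
  have hR0 : (0 : ℝ) < Rr := by exact_mod_cast hR1
  have hs0 : (0 : ℝ) < s := by exact_mod_cast hs
  refine hLL V V P.Lab P.K Reg' (fun l => Wl P (l : ℕ)) (fun w ω => Bad1 P w ω)
    (fun l ω => Bad P R wt p δ1 (l : ℕ) ω) pv
    ((P.qm * P.J : ℝ) * (Rr * Real.exp (-(δ1 ^ 2 * p ^ 2 * s / (4 * (Rr : ℝ) ^ 2))))) Rr (6 * s)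
    ?_ ?_ hpv (by positivity) hR1 h8 hA1 ?_ ?_ ?_ ?_ ?_ ?_
  · intro w ω ω' h hb
    exact Bad1_loc P w ω ω' (hReg'1 w ω ω' h) hb
  · intro l ω ω' h hb
    exact Bad_loc P hLP R wt p δ1 l l.2 ω ω' h hb
  · intro l
    exact Bad_prob P hH R wt hwt Reg hReg1 Rr hR1 (fun v => by rw [hRr]; exact hReg2 v) p δ1 hp hδ
      hpr l s hs (hsl l l.2).1
  · intro v
    refine (hReg'2 v).trans ?_
    rw [hRr]
    exact Nat.pow_le_pow_right (by omega) (by omega)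
  · intro v
    exact deg12 P Reg' hReg'0 v
  · intro l
    exact deg21 P Reg' hReg'0 s (fun m hm => (hsl m hm).2) l
  · intro l
    exact deg22 P l
  · set a : ℝ := δ1 ^ 2 * p ^ 2 / (8 * (Rr : ℝ) ^ 2) with ha
    have h1 : 48 * pv ≤ a := by
      rw [ha, le_div_iff₀ (by positivity)]
      nlinarith
    have h2 : -(δ1 ^ 2 * p ^ 2 * s / (4 * (Rr : ℝ) ^ 2)) = -(2 * a * s) := by
      rw [ha]
      field_simp
      ring
    rw [h2]
    have h3 : 8 * pv * ((6 * s : ℕ) : ℝ) ≤ a * s := by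
      push_cast
      nlinarith
    calc 30 * ((P.qm * P.J : ℝ) * (Rr * Real.exp (-(2 * a * s)))) *
          Real.exp (8 * pv * ((6 * s : ℕ) : ℝ))
        ≤ 30 * ((P.qm * P.J : ℝ) * (Rr * Real.exp (-(2 * a * s)))) * Real.exp (a * s) := by
          gcongr
      _ = 30 * (P.qm * P.J : ℝ) * Rr * (Real.exp (-(2 * a * s)) * Real.exp (a * s)) := by ring
      _ = 30 * (P.qm * P.J : ℝ) * Rr * Real.exp (-(a * s)) := by
          rw [← Real.exp_add]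
          congr 2
          ring
      _ ≤ Real.exp (a * s) * Real.exp (-(a * s)) := by gcongr
      _ = 1 := by rw [← Real.exp_add, add_neg_cancel, Real.exp_zero]

end

/-- PACKET COREB. -/
theorem goalCORE : GoalCOREA → GoalLOC → GoalLOC2 → GoalLOCP → GoalHOE → GoalLL2 → GoalGRE →
    GoalCORE := by
  intro hCA hLOC hLOC2 hLP hH hLL hGR δ hδ hδ1'
  obtain ⟨γ0, c8, ε, J, L, Z, M1', hγ0, hγ1, hc8, hε0, hε8, hJγ, hL, hZ, hC⟩ := hCA δ hδ hδ1'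
  have hJ16 : 16 ≤ J := by
    have h1 : (16 : ℝ) ≤ 1 * J := hJγ.trans (mul_le_mul_of_nonneg_right hγ1 (Nat.cast_nonneg J))
    rw [one_mul] at h1
    exact_mod_cast h1
  have hJ0 : (0 : ℝ) < J := by exact_mod_cast (by omega : 0 < J)
  set δ1 : ℝ := γ0 / 8 with hδ1
  have hδ10 : 0 < δ1 := by positivity
  have hδ1h : δ1 ≤ 1 / 8 := by rw [hδ1]; linarith
  set k : ℕ := 2 * (2 * Z + J + 4) with hk
  obtain ⟨Ma, hMa⟩ := poly_exp c8 hc8 k (8 * 4 ^ k)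
  obtain ⟨Mb, hMb⟩ := poly_exp c8 hc8 (2 * k + 2)
    (384 * 16 ^ k * (J : ℝ) ^ 2 / (δ1 ^ 2 * (1 + γ0) ^ 2))
  refine ⟨γ0 / 2, max (max M1' (max Ma Mb)) (J + 8), by positivity, ?_⟩
  intro D hD
  have hD1 : M1' ≤ D := le_trans (le_trans (le_max_left _ _) (le_max_left _ _)) hD
  have hD2 : Ma ≤ D :=
    le_trans (le_trans (le_trans (le_max_left _ _) (le_max_right _ _)) (le_max_left _ _)) hD
  have hD3 : Mb ≤ D :=
    le_trans (le_trans (le_trans (le_max_right _ _) (le_max_right _ _)) (le_max_left _ _)) hD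
  have hD4 : J + 8 ≤ D := le_trans (le_max_right _ _) hD
  have hDpos : (0 : ℝ) < D := by exact_mod_cast (by omega : 0 < D)
  set fl : ℕ := ⌊ε * D⌋₊ with hfl
  have hfl8 : 8 * fl ≤ D := by
    have h1 : (fl : ℝ) ≤ ε * D := Nat.floor_le (by positivity)
    have h2 : (8 : ℝ) * fl ≤ D := by nlinarith
    exact_mod_cast h2
  set Rr : ℕ := (3 * D + 1) ^ k with hRr
  set p : ℝ := (1 + γ0) / ((D : ℝ) * J) with hp
  have hp0 : 0 < p := by positivity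
  set pv : ℝ := Real.exp (-(c8 * D)) with hpv
  have hpv0 : 0 < pv := Real.exp_pos _
  have hRr4 : (Rr : ℝ) ≤ 4 ^ k * (D : ℝ) ^ k := by
    rw [hRr, ← mul_pow]
    push_cast
    apply pow_le_pow_left₀ (by positivity)
    have : (1 : ℝ) ≤ D := by exact_mod_cast (by omega : 1 ≤ D)
    linarith
  have hRr1 : 1 ≤ Rr := Nat.one_le_pow _ _ (by omega)
  have hRr0 : (0 : ℝ) < Rr := by exact_mod_cast hRr1
  have h8 : 8 * pv * Rr ≤ 1 := by
    have h1 := hMa D hD2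
    calc 8 * pv * Rr ≤ 8 * pv * (4 ^ k * (D : ℝ) ^ k) := by gcongr
      _ = 8 * 4 ^ k * (D : ℝ) ^ k * pv := by ring
      _ ≤ 1 := h1
  have h384 : 384 * pv * (Rr : ℝ) ^ 2 ≤ δ1 ^ 2 * p ^ 2 := by
    have h1 := hMb D hD3
    have h2 : (Rr : ℝ) ^ 2 ≤ 16 ^ k * (D : ℝ) ^ (2 * k) := by
      calc (Rr : ℝ) ^ 2 ≤ (4 ^ k * (D : ℝ) ^ k) ^ 2 := by gcongr
        _ = 16 ^ k * (D : ℝ) ^ (2 * k) := by
          rw [mul_pow, ← pow_mul, ← pow_mul, mul_comm k 2, pow_mul (4 : ℝ) 2 k]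
          norm_num
    have h3 : δ1 ^ 2 * p ^ 2 = δ1 ^ 2 * (1 + γ0) ^ 2 / ((D : ℝ) ^ 2 * (J : ℝ) ^ 2) := by
      rw [hp]
      field_simp
    rw [h3, le_div_iff₀ (by positivity)]
    have h4 : 0 < δ1 ^ 2 * (1 + γ0) ^ 2 := by positivity
    calc 384 * pv * (Rr : ℝ) ^ 2 * ((D : ℝ) ^ 2 * (J : ℝ) ^ 2)
        ≤ 384 * pv * (16 ^ k * (D : ℝ) ^ (2 * k)) * ((D : ℝ) ^ 2 * (J : ℝ) ^ 2) := by gcongr
      _ = (δ1 ^ 2 * (1 + γ0) ^ 2) * (384 * 16 ^ k * (J : ℝ) ^ 2 / (δ1 ^ 2 * (1 + γ0) ^ 2) *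
          (D : ℝ) ^ (2 * k + 2) * pv) := by
          rw [pow_add]
          field_simp
      _ ≤ (δ1 ^ 2 * (1 + γ0) ^ 2) * 1 := by gcongr
      _ = δ1 ^ 2 * (1 + γ0) ^ 2 := mul_one _
  set qm : ℕ := D + J - fl with hqm
  set a0 : ℝ := δ1 ^ 2 * p ^ 2 / (8 * (Rr : ℝ) ^ 2) with ha0
  have ha00 : 0 < a0 := by positivity
  obtain ⟨N0, hN0⟩ := exists_nat_ge (30 * ((qm : ℝ) * J) * Rr / a0)
  refine ⟨N0 + 1, ?_⟩
  intro V _ H K part wt s hK hnear hsp hs hwt hsize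
  classical
  let P : Sy V :=
    { H := H, K := K, D := D, q := D + J, qm := qm, J := J, L := L, Z := Z, part := part
      idx := fun v => (Fintype.equivFin V v : ℕ)
      hK := hK
      hD := by omega
      hq := le_rfl
      hq2 := by omega
      hqm := by omega
      hqm2 := by omega
      hJ := by omega
      hJqm := by omega
      hL := hL
      hZ := hZ
      hnear := hnear
      hidx := fun u v h => (Fintype.equivFin V).injective (Fin.ext h) }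
  obtain ⟨R, hR1, hR2⟩ := hC V P hD1 rfl rfl rfl rfl rfl hsp
  have hs1 : 1 ≤ s := by omega
  have hs0 : (0 : ℝ) < s := by exact_mod_cast hs1
  have hSl : ∀ m < P.K, s ≤ 2 * (Sl P m).card ∧ (Sl P m).card ≤ 2 * s ∧
      (s : ℝ) ≤ ∑ v ∈ Sl P m, (wt v : ℝ) := by
    intro m hm
    obtain ⟨h1, h2⟩ := hsize m hm
    have e : ∑ v ∈ Finset.univ.filter (fun v => part v = m), wt v = ∑ v ∈ Sl P m, wt v := rfl
    rw [e] at h1 h2
    refine ⟨h1.trans ?_, le_trans ?_ h2, by exact_mod_cast h1⟩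
    · calc ∑ v ∈ Sl P m, wt v ≤ ∑ _v ∈ Sl P m, 2 := Finset.sum_le_sum fun v _ => (hwt v).2
        _ = 2 * (Sl P m).card := by rw [Finset.sum_const, smul_eq_mul, mul_comm]
    · calc (Sl P m).card = ∑ _v ∈ Sl P m, 1 := by rw [Finset.sum_const, smul_eq_mul, mul_one]
        _ ≤ ∑ v ∈ Sl P m, wt v := Finset.sum_le_sum fun v _ => (hwt v).1
  obtain ⟨ω, hω1, hω2⟩ := exists_good P hLOC hLOC2 hLP hH hLL R wt hwt pv p δ1 hpv0.le hp0.le
    hδ10.le Rr rfl h8 h384 hR1 hR2 s hs1 (fun m hm => ⟨(hSl m hm).1, (hSl m hm).2.1⟩) (by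
      change 30 * ((qm : ℝ) * J) * Rr ≤ Real.exp (a0 * s)
      have h1 : (N0 : ℝ) ≤ s := by exact_mod_cast (by omega : N0 ≤ s)
      have h2 : 30 * ((qm : ℝ) * J) * Rr ≤ a0 * s := by
        have := hN0.trans h1
        rw [div_le_iff₀ ha00] at this
        linarith
      have h3 := Real.add_one_le_exp (a0 * s)
      linarith)
  obtain ⟨C, τ, hτ, hC1, hC2, hC3, hC4⟩ := hGR V P R ω (fun w => not_not.1 (hω1 w))
  refine ⟨P.N, J, ⌈(1 - δ1) * p * s⌉₊, C, τ, by have := P.eight_le_N; omega, by omega, hτ, hC1, hC2,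
    ?_, ?_⟩
  · intro g j hj
    obtain ⟨l, hl, a, ha, rfl⟩ := P.cl_surj g
    have hnb := hω2 ⟨l, hl⟩
    have hgt : (1 - δ1) * p * ∑ v ∈ Sl P l, (wt v : ℝ) <
        ∑ v ∈ (Sl P l).filter (fun v => Bv P R a j v ω), (wt v : ℝ) := by
      by_contra hcon
      exact hnb ⟨(a, j), Finset.mem_product.2 ⟨Finset.mem_range.2 ha, Finset.mem_range.2 hj⟩,
        not_lt.1 hcon⟩
    apply Nat.ceil_le.2
    have h3 : 0 ≤ (1 - δ1) * p := mul_nonneg (by linarith) hp0.le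
    have h4 : (1 - δ1) * p * s ≤ (1 - δ1) * p * ∑ v ∈ Sl P l, (wt v : ℝ) :=
      mul_le_mul_of_nonneg_left (hSl l hl).2.2 h3
    refine h4.trans (hgt.le.trans ?_)
    rw [← Nat.cast_sum]
    apply Nat.cast_le.2
    apply Finset.sum_le_sum_of_subset
    intro v hv
    rw [Finset.mem_filter] at hv ⊢
    obtain ⟨hv1, hv2⟩ := hv
    have hv' := (mem_Sl P l v).1 hv1
    refine ⟨Finset.mem_univ _, ?_⟩
    rcases hv2 with ⟨hT, hCl⟩ | hI
    · rw [hv'] at hCl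
      exact hC3 v _ j hj hT hCl
    · have := hC4 v a j hI
      rw [hv'] at this
      exact this
  · have h1 : ((J - 2 : ℕ) : ℝ) = (J : ℝ) - 2 := by
      rw [Nat.cast_sub (by omega)]
      norm_num
    rw [h1]
    have h2 : (1 - δ1) * p * s ≤ (⌈(1 - δ1) * p * s⌉₊ : ℝ) := Nat.le_ceil _
    have h3 : (0 : ℝ) ≤ (J : ℝ) - 2 := by
      have : (16 : ℝ) ≤ J := by exact_mod_cast hJ16
      linarith
    refine le_trans ?_ (mul_le_mul_of_nonneg_left h2 h3)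
    have h4 : (1 + γ0 / 2) ≤ (1 - δ1) * ((1 - δ1) * (1 + γ0)) := by
      have e : (1 - δ1) * ((1 - δ1) * (1 + γ0))
          = 1 + γ0 / 2 + (γ0 / 4 - 15 * γ0 ^ 2 / 64 + γ0 ^ 3 / 64) := by
        rw [hδ1]
        ring
      have e1 : γ0 ^ 2 ≤ γ0 := by
        have := mul_le_mul_of_nonneg_left hγ1 hγ0.le
        rw [mul_one] at this
        rw [sq]
        exact this
      have e2 : 0 ≤ γ0 ^ 3 := by positivity
      rw [e]
      linarith
    have h5 : (1 - δ1) * J ≤ (J : ℝ) - 2 := by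
      have e : (1 - δ1) * J = (J : ℝ) - γ0 * J / 8 := by
        rw [hδ1]
        ring
      rw [e]
      linarith
    have h6 : 0 ≤ (1 - δ1) * (1 + γ0) := mul_nonneg (by linarith) (by linarith)
    have h7 : (1 + γ0 / 2) * J ≤ ((J : ℝ) - 2) * ((1 - δ1) * (1 + γ0)) := by
      calc (1 + γ0 / 2) * J ≤ (1 - δ1) * ((1 - δ1) * (1 + γ0)) * J := by gcongr
        _ = ((1 - δ1) * J) * ((1 - δ1) * (1 + γ0)) := by ring
        _ ≤ ((J : ℝ) - 2) * ((1 - δ1) * (1 + γ0)) := by gcongr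
    rw [hp, div_le_iff₀ hDpos]
    have h8' : ((J : ℝ) - 2) * ((1 - δ1) * ((1 + γ0) / ((D : ℝ) * J)) * s) * D
        = ((J : ℝ) - 2) * ((1 - δ1) * (1 + γ0)) / J * s := by
      field_simp
    rw [h8']
    apply mul_le_mul_of_nonneg_right _ hs0.le
    rw [le_div_iff₀ hJ0]
    exact h7

end Pool.Agent.Helper20.Sey3
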